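import Mathlib
import Pool.Agent.Helper49.Cons.Table

set_option autoImplicit false

/-!
# Conjunction of the runs of a procedure along a list
-/

namespace Pool.Agent.Helper21.Off

open Turing Function N487b59b3 N68a2faeb N793a5b8e Pool.Agent.Helper22 Pool.Agent.Helper20.Cons
  Pool.Agent.Helper49.Cons

section

variable {α β γ : Type} [N487b59b3 α] [N487b59b3 β] [N487b59b3 γ]

/-- one step of the interpretation of a list of answers (first one first) for the runs of `M` along
a list; the state is: the remaining answers, is a run unfinished, its next query, do all finished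
runs accept -/
def aStep (M : OracleProc β Bool) (s : List Bool × (Bool × (List Bool × Bool))) (b : β) :
    List Bool × (Bool × (List Bool × Bool)) :=
  if s.2.1 then s
  else if decide ((M.clock b).length ≤ s.1.length) then
    (s.1.drop (M.clock b).length,
      (false, ([], s.2.2.2 && M.out (b, (s.1.take (M.clock b).length).reverse))))
  else (s.1, (true, (M.query (b, s.1.reverse), s.2.2.2)))

theorem aStep_FP (M : OracleProc β Bool) :
    FP fun p : (List Bool × (Bool × (List Bool × Bool))) × β => aStep M p.1 p.2 := by
  have hc : FP fun p : (List Bool × (Bool × (List Bool × Bool))) × β => M.clock p.2 :=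
    ((isPolyTime_iff _).1 M.clock_poly).comp FP.snd
  have h1 : FP fun p : (List Bool × (Bool × (List Bool × Bool))) × β => p.1.1 :=
    FP.fst.comp FP.fst
  have h2 : FP fun p : (List Bool × (Bool × (List Bool × Bool))) × β => p.1.2.1 :=
    FP.fst.comp (FP.snd.comp FP.fst)
  have h3 : FP fun p : (List Bool × (Bool × (List Bool × Bool))) × β => p.1.2.2.2 :=
    FP.snd.comp (FP.snd.comp (FP.snd.comp FP.fst))
  have hb : FP fun p : (List Bool × (Bool × (List Bool × Bool))) × β => p.2 := FP.snd
  have hd : FP fun p : (List Bool × (Bool × (List Bool × Bool))) × β =>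
      p.1.1.drop (M.clock p.2).length := FP.drop h1 hc
  have ht : FP fun p : (List Bool × (Bool × (List Bool × Bool))) × β =>
      (p.1.1.take (M.clock p.2).length).reverse := FP.reverse (FP.take h1 hc)
  have ho : FP fun p : (List Bool × (Bool × (List Bool × Bool))) × β =>
      M.out (p.2, (p.1.1.take (M.clock p.2).length).reverse) :=
    ((isPolyTime_iff _).1 M.out_poly).comp (hb.pair ht)
  have hq : FP fun p : (List Bool × (Bool × (List Bool × Bool))) × β =>
      M.query (p.2, p.1.1.reverse) :=
    ((isPolyTime_iff _).1 M.query_poly).comp (hb.pair (FP.reverse h1))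
  exact FP.ite h2 FP.fst (FP.ite (FP.length_le hc h1)
    (hd.pair ((FP.const false).pair ((FP.const []).pair (h3.and ho))))
    (h1.pair ((FP.const true).pair (hq.pair h3))))

theorem aFold_FP [Inhabited β] (M : OracleProc β Bool) :
    FP fun p : List β × (List Bool × (Bool × (List Bool × Bool))) =>
      p.1.foldl (aStep M) p.2 := by
  obtain ⟨B, hB, hBm, hBle⟩ := ((isPolyTime_iff _).1 M.query_poly).bound
  have key : ∀ (C R Q : ℕ) (l : List β) (s : List Bool × (Bool × (List Bool × Bool))),
      (∀ b ∈ l, sz b ≤ C) → s.1.length ≤ R → s.2.2.1.length ≤ Q + B (2 * C + 1 + 3 * R) →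
      (l.foldl (aStep M) s).1.length ≤ R ∧
      (l.foldl (aStep M) s).2.2.1.length ≤ Q + B (2 * C + 1 + 3 * R) := by
    intro C R Q l
    induction l with
    | nil => intro s _ h1 h2; exact ⟨h1, h2⟩
    | cons b l ih =>
      intro s h0 h1 h2
      refine ih _ (fun b' hb' => h0 b' (List.mem_cons_of_mem _ hb')) ?_ ?_
      · unfold aStep
        split_ifs
        · exact h1
        · rw [List.length_drop]; omega
        · exact h1
      · unfold aStep
        split_ifs
        · exact h2
        · simp
        · have h3 := hBle (b, s.1.reverse)
          have h4 := h0 b List.mem_cons_self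
          rw [sz_bits, sz_pair, sz_bits, List.length_reverse] at h3
          have h5 := hBm (show 2 * sz b + 1 + 3 * s.1.length ≤ 2 * C + 1 + 3 * R by omega)
          show (M.query (b, s.1.reverse)).length ≤ _
          omega
  refine FP.foldl (g := aStep M) (aStep_FP M)
    (B := fun n => 6 * n + 9 + 12 * (n + B (2 * n + 1 + 3 * n))) (by fun_prop) ?_
  intro l s
  obtain ⟨h1, h2⟩ := key (sz l) s.1.length s.2.2.1.length l s (fun b hb => sz_mem_le hb) le_rfl
    (Nat.le_add_right _ _)
  obtain ⟨s1, s2, s3, s4⟩ := s
  rcases hr : l.foldl (aStep M) (s1, s2, s3, s4) with ⟨r1, r2, r3, r4⟩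
  rw [hr] at h1 h2
  simp only [sz_pair, sz_bits, sz_bool] at *
  have h5 := hBm (show 2 * sz l + 1 + 3 * s1.length ≤ 2 * (sz l + (2 * (3 * s1.length) + 1 +
    (2 * 1 + 1 + (2 * (3 * s3.length) + 1 + 1)))) + 1 + 3 * (sz l + (2 * (3 * s1.length) + 1 +
    (2 * 1 + 1 + (2 * (3 * s3.length) + 1 + 1)))) by omega)
  omega

/-- the answers in the successive runs of `M` along a list -/
def tr (M : OracleProc β Bool) (X : Oracle) (l : List β) : List Bool :=
  l.flatMap fun b => (M.answers X b (M.clock b).length).reverse

theorem rev_take (M : OracleProc β Bool) (X : Oracle) (b : β) {n m : ℕ} (h : n ≤ m) :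
    ((M.answers X b m).reverse).take n = (M.answers X b n).reverse := by
  obtain ⟨k, rfl⟩ := Nat.exists_eq_add_of_le h
  obtain ⟨u, hu⟩ := answers_split M X b n k
  rw [hu, List.reverse_append]
  have h1 : (M.answers X b n).reverse.length = n := by
    rw [List.length_reverse, OracleProc.answers_length]
  exact List.take_left' h1

theorem fold_active (M : OracleProc β Bool) (l : List β)
    (s : List Bool × (Bool × (List Bool × Bool))) (h : s.2.1 = true) :
    l.foldl (aStep M) s = s := by
  induction l with
  | nil => rfl
  | cons b l ih =>
    have h1 : aStep M s b = s := by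
      unfold aStep
      rw [if_pos h]
    rw [List.foldl_cons, h1, ih]

theorem aStep_done (M : OracleProc β Bool) (X : Oracle) (b : β) (r q : List Bool) (ok : Bool) :
    aStep M ((M.answers X b (M.clock b).length).reverse ++ r, (false, (q, ok))) b =
      (r, (false, ([], ok && M.run X b))) := by
  have h1 : (M.answers X b (M.clock b).length).reverse.length = (M.clock b).length := by
    rw [List.length_reverse, OracleProc.answers_length]
  have h2 : decide ((M.clock b).length ≤
      ((M.answers X b (M.clock b).length).reverse ++ r).length) = true := by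
    rw [decide_eq_true_iff, List.length_append, h1]
    omega
  have h3 : ((M.answers X b (M.clock b).length).reverse ++ r).drop (M.clock b).length = r := by
    exact List.drop_left' h1
  have h4 : (((M.answers X b (M.clock b).length).reverse ++ r).take (M.clock b).length).reverse =
      M.answers X b (M.clock b).length := by
    rw [List.take_left' h1, List.reverse_reverse]
  unfold aStep
  simp only [Bool.false_eq_true, if_false]
  rw [if_pos h2, h3, h4]
  rfl

theorem fold_done (M : OracleProc β Bool) (X : Oracle) (l : List β) (r q : List Bool)
    (ok : Bool) :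
    (l.foldl (aStep M) (tr M X l ++ r, (false, (q, ok)))).2.2.2 = (ok && l.all (M.run X)) := by
  induction l generalizing q ok with
  | nil => simp
  | cons b l ih =>
    have h1 : tr M X (b :: l) = (M.answers X b (M.clock b).length).reverse ++ tr M X l := rfl
    rw [List.foldl_cons, h1, List.append_assoc, aStep_done, ih, List.all_cons, Bool.and_assoc]

theorem fold_part (M : OracleProc β Bool) (X : Oracle) (l : List β) (q : List Bool) (ok : Bool)
    (n : ℕ) (hn : n < (tr M X l).length) :
    (tr M X l).take (n + 1) = (tr M X l).take n ++
      [X (l.foldl (aStep M) ((tr M X l).take n, (false, (q, ok)))).2.2.1] := by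
  induction l generalizing q ok n with
  | nil => simp [tr] at hn
  | cons b l ih =>
    have h1 : tr M X (b :: l) = (M.answers X b (M.clock b).length).reverse ++ tr M X l := rfl
    have h2 : (M.answers X b (M.clock b).length).reverse.length = (M.clock b).length := by
      rw [List.length_reverse, OracleProc.answers_length]
    rw [h1, List.length_append, h2] at hn
    by_cases hc : n < (M.clock b).length
    · have h3 : (tr M X (b :: l)).take n = (M.answers X b n).reverse := by
        rw [h1, List.take_append_of_le_length (by omega), rev_take M X b (by omega)]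
      have h4 : (tr M X (b :: l)).take (n + 1) = (M.answers X b (n + 1)).reverse := by
        rw [h1, List.take_append_of_le_length (by omega), rev_take M X b (by omega)]
      have h5 : decide ((M.clock b).length ≤ (M.answers X b n).reverse.length) = false := by
        rw [decide_eq_false_iff_not, List.length_reverse, OracleProc.answers_length]
        omega
      have h6 : aStep M ((M.answers X b n).reverse, (false, (q, ok))) b =
          ((M.answers X b n).reverse, (true, (M.query (b, M.answers X b n), ok))) := by
        unfold aStep
        simp only [Bool.false_eq_true, if_false]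
        rw [if_neg (by rw [h5]; exact Bool.false_ne_true), List.reverse_reverse]
      rw [h3, h4, List.foldl_cons, h6, fold_active _ _ _ rfl, OracleProc.answers,
        List.reverse_cons]
    · obtain ⟨m, rfl⟩ := Nat.exists_eq_add_of_le (not_lt.1 hc)
      have h3 : ∀ k, (tr M X (b :: l)).take ((M.clock b).length + k) =
          (M.answers X b (M.clock b).length).reverse ++ (tr M X l).take k := by
        intro k
        rw [h1, List.take_append, h2, List.take_of_length_le (by omega), Nat.add_sub_cancel_left]
      rw [h3, Nat.add_assoc, h3, List.foldl_cons, aStep_done, ih _ _ m (by omega),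
        List.append_assoc]

/-- **Conjunction along a list.** -/
theorem exists_all [Inhabited β] (M : OracleProc β Bool) (g : α → List β) (hg : FP g) :
    ∃ K : OracleProc α Bool, ∀ X a, K.run X a = (g a).all (M.run X) := by
  obtain ⟨B0, hB0, hB0m, hB0le⟩ := ((isPolyTime_iff _).1 M.clock_poly).bound
  obtain ⟨B1, hB1, hB1m, hB1le⟩ := hg.bound
  have hG : PB fun n => B1 n * B0 (B1 n) := by fun_prop
  obtain ⟨c, hc, hcle⟩ := exists_unary_bound (α := α) hG
  have hlen : ∀ X (l : List β), (tr M X l).length ≤ l.length * B0 (sz l) := by
    intro X l
    have h1 : ∀ (C : ℕ) (l : List β), (∀ b ∈ l, sz b ≤ C) →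
        (tr M X l).length ≤ l.length * B0 C := by
      intro C l
      induction l with
      | nil => intro _; simp [tr]
      | cons b l ih =>
        intro h
        have h2 := ih fun b' hb' => h b' (List.mem_cons_of_mem _ hb')
        have h3 := hB0le b
        have h4 := hB0m (h b List.mem_cons_self)
        rw [sz_bits] at h3
        have h5 : tr M X (b :: l) = (M.answers X b (M.clock b).length).reverse ++ tr M X l := rfl
        rw [h5, List.length_append, List.length_reverse, OracleProc.answers_length,
          List.length_cons]
        have h6 : (l.length + 1) * B0 C = l.length * B0 C + B0 C := by ring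
        omega
    exact h1 _ l fun b hb => sz_mem_le hb
  have hbound : ∀ X a, (tr M X (g a)).length ≤ (c a).length := by
    intro X a
    refine (hlen X (g a)).trans (le_trans ?_ (hcle a))
    have h1 := hB1le a
    have h2 := length_le_sz (g a)
    exact Nat.mul_le_mul (h2.trans h1) (hB0m h1)
  have hf : FP fun s : α × List Bool =>
      (g s.1).foldl (aStep M) (s.2.reverse, (false, (([] : List Bool), true))) :=
    (aFold_FP M).comp ((hg.comp FP.fst).pair ((FP.reverse FP.snd).pair
      ((FP.const false).pair ((FP.const []).pair (FP.const true)))))
  let K : OracleProc α Bool :=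
    { clock := c
      query := fun s =>
        ((g s.1).foldl (aStep M) (s.2.reverse, (false, (([] : List Bool), true)))).2.2.1
      out := fun s =>
        ((g s.1).foldl (aStep M) (s.2.reverse, (false, (([] : List Bool), true)))).2.2.2
      clock_poly := (isPolyTime_iff _).2 hc
      query_poly := (isPolyTime_iff _).2 (FP.fst.comp (FP.snd.comp (FP.snd.comp hf)))
      out_poly := (isPolyTime_iff _).2 (FP.snd.comp (FP.snd.comp (FP.snd.comp hf))) }
  refine ⟨K, fun X a => ?_⟩
  have h1 : ∀ n, n ≤ (tr M X (g a)).length →
      (K.answers X a n).reverse = (tr M X (g a)).take n := by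
    intro n
    induction n with
    | zero => intro _; rfl
    | succ n ih =>
      intro hn
      have ih' := ih (by omega)
      rw [OracleProc.answers, List.reverse_cons, ih', fold_part M X (g a) [] true n (by omega)]
      show _ ++ [X ((g a).foldl (aStep M) ((K.answers X a n).reverse,
        (false, (([] : List Bool), true)))).2.2.1] = _
      rw [ih']
  obtain ⟨m, hm⟩ := Nat.exists_eq_add_of_le (hbound X a)
  obtain ⟨u, hu⟩ := answers_split K X a (tr M X (g a)).length m
  have h2 : (K.answers X a (K.clock a).length).reverse = tr M X (g a) ++ u.reverse := by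
    have h3 : (K.clock a).length = (tr M X (g a)).length + m := hm
    rw [h3, hu, List.reverse_append, h1 _ le_rfl, List.take_length]
  show ((g a).foldl (aStep M) ((K.answers X a (K.clock a).length).reverse,
    (false, (([] : List Bool), true)))).2.2.2 = _
  rw [h2, fold_done, Bool.true_and]

/-- Choice between two procedures. -/
def ifte (c : α → Bool) (hc : FP c) (M N : OracleProc α β) : OracleProc α β where
  clock := fun a => if c a then M.clock a else N.clock a
  query := fun s => if c s.1 then M.query s else N.query s
  out := fun s => if c s.1 then M.out s else N.out s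
  clock_poly := (isPolyTime_iff _).2 (FP.ite hc ((isPolyTime_iff _).1 M.clock_poly)
    ((isPolyTime_iff _).1 N.clock_poly))
  query_poly := (isPolyTime_iff _).2 (FP.ite (hc.comp FP.fst) ((isPolyTime_iff _).1 M.query_poly)
    ((isPolyTime_iff _).1 N.query_poly))
  out_poly := (isPolyTime_iff _).2 (FP.ite (hc.comp FP.fst) ((isPolyTime_iff _).1 M.out_poly)
    ((isPolyTime_iff _).1 N.out_poly))

theorem ifte_run (c : α → Bool) (hc : FP c) (M N : OracleProc α β) (X : Oracle) (a : α) :
    (ifte c hc M N).run X a = if c a then M.run X a else N.run X a := by
  have h1 : ∀ n, (ifte c hc M N).answers X a n =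
      if c a then M.answers X a n else N.answers X a n := by
    intro n
    induction n with
    | zero => cases c a <;> rfl
    | succ n ih =>
      rw [OracleProc.answers, ih]
      cases hca : c a
      · simp only [Bool.false_eq_true, if_false, OracleProc.answers, ifte, hca]
      · simp only [if_true, OracleProc.answers, ifte, hca]
  rw [OracleProc.run, h1]
  cases hca : c a
  · simp only [ifte, hca, Bool.false_eq_true, if_false, OracleProc.run]
  · simp only [ifte, hca, if_true, OracleProc.run]

/-- Conjunction of two procedures. -/
theorem exists_and (M N : OracleProc α Bool) :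
    ∃ K : OracleProc α Bool, ∀ X a, K.run X a = (M.run X a && N.run X a) := by
  obtain ⟨N', hN'⟩ := exists_post (pre N (fun s : α × Bool => s.1) FP.fst)
    (fun s : (α × Bool) × Bool => s.1.2 && s.2) ((FP.snd.comp FP.fst).and FP.snd)
  obtain ⟨K, hK⟩ := exists_bind M N'
  exact ⟨K, fun X a => by rw [hK, hN', pre_run]⟩

end

end Pool.Agent.Helper21.Off
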