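import Mathlib
import Pool.Agent.Helper22.Uniform
import Pool.Agent.Helper22.Cons.Univ
import Pool.Agent.Helper21.Off.AllProc

set_option autoImplicit false

/-!
# The lemma of Even, Selman and Yacobi, relative to an oracle
-/

namespace Pool.Agent.Helper21.Off

open Turing Function N487b59b3 N68a2faeb N793a5b8e Pool.Agent.Helper22 Pool.Agent.Helper20.Cons
  Pool.Agent.Helper49.Cons

theorem exists_bounded (M : OracleProc (List Bool × List Bool) Bool) (p : Polynomial ℕ) :
    ∃ K : OracleProc (List Bool × List Bool) Bool, ∀ X x w, K.run X (x, w) = true ↔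
      w.length ≤ p.eval x.length ∧ M.run X (x, w) = true := by
  have h : FP fun a : List Bool × List Bool =>
      decide (a.2.length ≤ (un (p.eval a.1.length)).length) :=
    FP.length_le FP.snd (FP.un_poly FP.fst p)
  obtain ⟨K, hK⟩ := exists_and (OracleProc.ofFP _ h) M
  refine ⟨K, fun X x w => ?_⟩
  rw [hK, ofFP_run, Bool.and_eq_true, decide_eq_true_iff, un_length]

theorem exists_neg {α : Type} [N487b59b3 α] (M : OracleProc α Bool) :
    ∃ K : OracleProc α Bool, ∀ X a, K.run X a = !M.run X a :=
  exists_post M (fun s : α × Bool => !s.2) FP.snd.not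

/-- the node of the search tree of `x` with prefix `u`, padded -/
def node (n₀ : ℕ) (x u : List Bool) : List Bool := cd (cd x u) (un n₀)

/-- the choice in an item of a certificate -/
def ibit (it : List Bool) : Bool := (cs it).headD false

/-- the certificate of the choice -/
def icert (it : List Bool) : List Bool := (cs it).tail

theorem ibit_FP : FP ibit := FP.headD (FP.cs FP.id) _

theorem icert_FP : FP icert := FP.tail (FP.cs FP.id)

/-- one step of the verification of the prefixes; the state is: the expected prefix, ok -/
def chStep (s : List Bool × Bool) (it : List Bool) : List Bool × Bool :=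
  (s.1 ++ [ibit it], s.2 && weq (cf it) s.1)

theorem chStep_length (l : List (List Bool)) (s : List Bool × Bool) :
    (l.foldl chStep s).1.length = s.1.length + l.length := by
  induction l generalizing s with
  | nil => rfl
  | cons b l ih =>
    rw [List.foldl_cons, ih, List.length_cons]
    simp only [chStep, List.length_append, List.length_singleton]
    omega

theorem chStep_false (l : List (List Bool)) (u : List Bool) :
    (l.foldl chStep (u, false)).2 = false := by
  induction l generalizing u with
  | nil => rfl
  | cons b l ih => exact ih _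

theorem chFold_FP : FP fun p : List (List Bool) × (List Bool × Bool) => p.1.foldl chStep p.2 := by
  refine FP.foldl (g := chStep) ?_ (B := fun n => 6 * n + 2) (by fun_prop) ?_
  · have h1 : FP fun p : (List Bool × Bool) × List Bool => [ibit p.2] :=
      (ibit_FP.comp FP.snd).cons (FP.const [])
    have h2 : FP fun p : (List Bool × Bool) × List Bool => weq (cf p.2) p.1.1 := by fun_prop
    exact (FP.append (FP.fst.comp FP.fst) h1).pair ((FP.snd.comp FP.fst).and h2)
  · intro l s
    have h1 := chStep_length l s
    have h2 := length_le_sz l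
    obtain ⟨s1, s2⟩ := s
    rcases hr : l.foldl chStep (s1, s2) with ⟨r1, r2⟩
    rw [hr] at h1
    simp only [sz_pair, sz_bits, sz_bool] at *
    omega

section

variable (A : Oracle) (p : Polynomial ℕ) (R : OracleProc (List Bool × List Bool) Bool)

/-- some witness for the word `x` extends `u` followed by `b`, where `z` codes `x` and `u` -/
noncomputable def Br (b : Bool) : DecisionProblem := fun z =>
  @decide (Below p (R.run A) (cf (cf z)) (cs (cf z) ++ [b])) (Classical.propDecidable _)

theorem Br_iff (b : Bool) (z : List Bool) : Br A p R b z = true ↔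
    Below p (R.run A) (cf (cf z)) (cs (cf z) ++ [b]) :=
  @decide_eq_true_iff _ (Classical.propDecidable _)

theorem Br_mem (b : Bool) : Br A p R b ∈ NPo A := by
  have h1 : FP fun a : List Bool × List Bool => (cf (cf a.1), cs (cf a.1) ++ b :: a.2) :=
    FP.pair (by fun_prop) (FP.append (by fun_prop) ((FP.const b).cons FP.snd))
  have h2 : FP fun a : List Bool × List Bool => decide ((cs (cf a.1) ++ b :: a.2).length ≤
      (un (p.eval (cf (cf a.1)).length)).length) :=
    FP.length_le (FP.append (by fun_prop) ((FP.const b).cons FP.snd))
      (FP.un_poly (by fun_prop) p)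
  obtain ⟨K, hK⟩ := exists_and (pre R _ h1) (OracleProc.ofFP _ h2)
  refine ⟨p, K, fun z => ?_⟩
  rw [Br_iff]
  constructor
  · rintro ⟨u, hu, hR⟩
    refine ⟨u, ?_, ?_⟩
    · have h3 : u.length ≤ p.eval (cf (cf z)).length := by
        simp only [List.length_append] at hu; omega
      exact h3.trans (poly_mono p ((cf_length_le _).trans (cf_length_le _)))
    · rw [hK, pre_run, ofFP_run, Bool.and_eq_true, decide_eq_true_iff, un_length]
      exact ⟨by simpa using hR, by simpa using hu⟩
  · rintro ⟨u, -, h⟩
    rw [hK, pre_run, ofFP_run, Bool.and_eq_true, decide_eq_true_iff, un_length] at h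
    exact ⟨u, by simpa using h.2, by simpa using h.1⟩

end

theorem lc_length_le (l : List (List Bool)) (C : ℕ) (h : ∀ a ∈ l, List.length a ≤ C) :
    (lc l).length ≤ l.length * (2 * C + 1) := by
  induction l with
  | nil => simp [lc]
  | cons a l ih =>
    have h1 := ih fun b hb => h b (List.mem_cons_of_mem _ hb)
    have h2 := h a List.mem_cons_self
    rw [lc, cd_length, List.length_cons]
    have h3 : (l.length + 1) * (2 * C + 1) = l.length * (2 * C + 1) + (2 * C + 1) := by ring
    omega

/-- **The lemma of Even, Selman and Yacobi.** If a language of NP ∩ coNP decides, at the padded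
nodes of the search trees, which of the two branches contains a witness whenever exactly one does,
then the language is in coNP. -/
theorem esy_core (A : Oracle) (L : DecisionProblem) (p : Polynomial ℕ)
    (R : OracleProc (List Bool × List Bool) Bool) (hL : ∀ x, L x = true ↔ Accepts R p A x)
    (S : DecisionProblem) (hS1 : S ∈ NPo A) (hS0 : S ∈ coNPo A) (n₀ : ℕ)
    (hS : ∀ z, n₀ ≤ z.length → (Br A p R true z = true ↔ ¬ Br A p R false z = true) →
      (S z = true ↔ Br A p R true z = true)) : L ∈ coNPo A := by
  obtain ⟨q1, M1, hM1⟩ := hS1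
  obtain ⟨q0, M0, hM0⟩ := hS0
  obtain ⟨K1, hK1⟩ := exists_bounded M1 q1
  obtain ⟨K0, hK0⟩ := exists_bounded M0 q0
  -- verification of one item
  have fnode : FP fun a : List Bool × List Bool => node n₀ a.1 (cf a.2) :=
    FP.cd (FP.cd FP.fst (FP.cf FP.snd)) (FP.const _)
  have fa : FP fun a : List Bool × List Bool => (node n₀ a.1 (cf a.2), icert a.2) :=
    fnode.pair (icert_FP.comp FP.snd)
  have fb : FP fun a : List Bool × List Bool => ibit a.2 := ibit_FP.comp FP.snd
  have fr : FP fun a : List Bool × List Bool => (a.1, cf a.2) := FP.fst.pair (FP.cf FP.snd)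
  obtain ⟨R', hR'⟩ := exists_neg R
  obtain ⟨N, hN⟩ := exists_and (ifte _ fb (pre K1 _ fa) (pre K0 _ fa)) (pre R' _ fr)
  have hNrun : ∀ x it, N.run A (x, it) = true ↔ ((if ibit it then K1.run A
      (node n₀ x (cf it), icert it) else K0.run A (node n₀ x (cf it), icert it)) = true ∧
      R.run A (x, cf it) = false) := by
    intro x it
    rw [hN, ifte_run, pre_run, pre_run, pre_run, hR', Bool.and_eq_true, Bool.not_eq_true']
  -- a correct item
  have hitem : ∀ x it, N.run A (x, it) = true →
      (S (node n₀ x (cf it)) = true ↔ ibit it = true) := by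
    intro x it h
    have h1 := ((hNrun x it).1 h).1
    cases hb : ibit it
    · rw [hb] at h1
      simp only [Bool.false_eq_true, if_false] at h1
      have h2 := (hM0 (node n₀ x (cf it))).2 ⟨_, (hK0 _ _ _).1 h1⟩
      rw [compl_true] at h2
      simp [h2]
    · rw [hb] at h1
      simp only [if_true] at h1
      have h2 := (hM1 (node n₀ x (cf it))).2 ⟨_, (hK1 _ _ _).1 h1⟩
      simp [h2]
  -- the step down the tree
  have hdown : ∀ x u it, cf it = u → N.run A (x, it) = true → Below p (R.run A) x u →
      Below p (R.run A) x (u ++ [ibit it]) := by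
    rintro x u it rfl h hB
    have h1 := hitem x it h
    have h2 := ((hNrun x it).1 h).2
    have h3 := (below_iff p (R.run A) x (cf it) h2).1 hB
    have h4 : ∀ b, Br A p R b (node n₀ x (cf it)) = true ↔
        Below p (R.run A) x (cf it ++ [b]) := by
      intro b
      rw [Br_iff, node, cf_cd, cf_cd, cs_cd]
    have h5 : n₀ ≤ (node n₀ x (cf it)).length := by
      rw [node, cd_length, un_length]; omega
    have h6 := hS _ h5
    rw [h4, h4, h1] at h6
    cases hb : ibit it
    · rw [hb] at h6
      by_contra h7
      have h8 : Below p (R.run A) x (cf it ++ [true]) := by tauto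
      have h9 := h6 ⟨fun _ => h7, fun _ => h8⟩
      simp [h8] at h9
    · rw [hb] at h6
      by_contra h7
      have h8 : Below p (R.run A) x (cf it ++ [false]) := by tauto
      have h9 := h6 ⟨fun h => absurd h h7, fun h => absurd h8 h⟩
      exact h7 (h9.1 rfl)
  have hchain : ∀ (l : List (List Bool)) (x u : List Bool),
      (∀ it ∈ l, N.run A (x, it) = true) → Below p (R.run A) x u →
      (l.foldl chStep (u, true)).2 = true → Below p (R.run A) x (l.foldl chStep (u, true)).1 := by
    intro l x
    induction l with
    | nil => intro u _ h _; exact h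
    | cons it l ih =>
      intro u h1 h2 h3
      rw [List.foldl_cons] at h3 ⊢
      have h4 : weq (cf it) u = true := by
        by_contra hc
        rw [Bool.not_eq_true] at hc
        have h5 : chStep (u, true) it = (u ++ [ibit it], false) := by
          simp only [chStep, hc, Bool.and_false]
        rw [h5, chStep_false] at h3
        exact absurd h3 Bool.false_ne_true
      have h5 : chStep (u, true) it = (u ++ [ibit it], true) := by
        simp only [chStep, h4, Bool.and_true]
      rw [h5] at h3 ⊢
      exact ih _ (fun it' h' => h1 it' (List.mem_cons_of_mem _ h'))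
        (hdown x u it ((weq_iff _ _).1 h4) (h1 it List.mem_cons_self) h2) h3
  -- the verifier
  have fg : FP fun a : List Bool × List Bool => (ld a.2).map fun b => (a.1, b) := by
    have h := FP.map_ctx (γ := List Bool) (β := List Bool) (h := fun q => q) FP.id
    exact h.comp (FP.fst.pair (FP.ld FP.snd))
  obtain ⟨V1, hV1⟩ := exists_all N _ fg
  have fc : FP fun a : List Bool × List Bool =>
      (ld a.2).foldl chStep (([] : List Bool), true) :=
    chFold_FP.comp ((FP.ld FP.snd).pair (FP.const _))
  have fd : FP fun a : List Bool × List Bool =>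
      (a.1, ((ld a.2).foldl chStep (([] : List Bool), true)).1) := FP.fst.pair fc.fst'
  have fe : FP fun a : List Bool × List Bool =>
      ((ld a.2).foldl chStep (([] : List Bool), true)).2 &&
      decide ((un (p.eval a.1.length)).length ≤
        ((ld a.2).foldl chStep (([] : List Bool), true)).1.length) :=
    fc.snd'.and (FP.length_le (FP.un_poly FP.fst p) fc.fst')
  obtain ⟨V2, hV2⟩ := exists_and (pre R' _ fd) (OracleProc.ofFP _ fe)
  obtain ⟨V, hV⟩ := exists_and V1 V2
  have hVrun : ∀ x w, V.run A (x, w) = true ↔ (∀ it ∈ ld w, N.run A (x, it) = true) ∧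
      R.run A (x, ((ld w).foldl chStep (([] : List Bool), true)).1) = false ∧
      ((ld w).foldl chStep (([] : List Bool), true)).2 = true ∧
      p.eval x.length ≤ ((ld w).foldl chStep (([] : List Bool), true)).1.length := by
    intro x w
    rw [hV, hV1, hV2, pre_run, hR', ofFP_run]
    simp only [Bool.and_eq_true, List.all_eq_true, List.mem_map, Bool.not_eq_true',
      decide_eq_true_eq, un_length, forall_exists_index, and_imp, forall_apply_eq_imp_iff₂]
  -- the bound for the certificates
  let m : ℕ → ℕ := fun n => p.eval n
  let Q : ℕ → ℕ := fun n => q1.eval (2 * (2 * n + 1 + m n) + 1 + n₀) +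
    q0.eval (2 * (2 * n + 1 + m n) + 1 + n₀)
  have hm : PB m := PB.poly p
  have hQ : PB Q := by
    have h1 : PB fun n => 2 * (2 * n + 1 + m n) + 1 + n₀ := by fun_prop
    exact ((PB.poly q1).comp h1).add ((PB.poly q0).comp h1)
  have hP : PB fun n => m n * (2 * (2 * m n + 1 + (1 + Q n)) + 1) := by fun_prop
  obtain ⟨P, hP⟩ := exists_poly hP
  refine ⟨P, V, fun x => ?_⟩
  rw [compl_true]
  constructor
  · intro hx
    rw [hL] at hx
    have hRx : ∀ u : List Bool, u.length ≤ p.eval x.length → R.run A (x, u) = false := by
      intro u hu
      by_contra hc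
      exact hx ⟨u, hu, by simpa using hc⟩
    have hl : ∀ k, k ≤ m x.length → ∃ l : List (List Bool), l.length = k ∧
        (l.foldl chStep (([] : List Bool), true)).2 = true ∧
        ∀ it ∈ l, N.run A (x, it) = true ∧
          it.length ≤ 2 * m x.length + 1 + (1 + Q x.length) := by
      intro k
      induction k with
      | zero => intro _; exact ⟨[], rfl, rfl, by simp⟩
      | succ k ih =>
        intro hk
        obtain ⟨l, hlk, hl2, hl3⟩ := ih (by omega)
        set u := (l.foldl chStep (([] : List Bool), true)).1 with hu
        have hul : u.length = k := by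
          rw [hu, chStep_length, hlk]; simp
        have hnl : (node n₀ x u).length ≤ 2 * (2 * x.length + 1 + m x.length) + 1 + n₀ := by
          rw [node, cd_length, cd_length, un_length]; omega
        -- the certificate of the choice
        obtain ⟨b, c, hc1, hc2⟩ : ∃ (b : Bool) (c : List Bool), (if b then K1.run A
            (node n₀ x u, c) else K0.run A (node n₀ x u, c)) = true ∧
            c.length ≤ Q x.length := by
          have e1 := poly_mono q1 hnl
          have e0 := poly_mono q0 hnl
          simp only at e1 e0
          by_cases hSu : S (node n₀ x u) = true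
          · obtain ⟨c, hc, hc'⟩ := (hM1 _).1 hSu
            refine ⟨true, c, ?_, ?_⟩
            · simp only [if_true]
              exact (hK1 _ _ _).2 ⟨hc, hc'⟩
            · show c.length ≤ q1.eval _ + q0.eval _
              omega
          · have h0 : Sᶜ (node n₀ x u) = true := (compl_true _ _).2 hSu
            obtain ⟨c, hc, hc'⟩ := (hM0 _).1 h0
            refine ⟨false, c, ?_, ?_⟩
            · simp only [Bool.false_eq_true, if_false]
              exact (hK0 _ _ _).2 ⟨hc, hc'⟩
            · show c.length ≤ q1.eval _ + q0.eval _
              omega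
        have hib : ibit (cd u (b :: c)) = b := by simp [ibit]
        have hic : icert (cd u (b :: c)) = c := by simp [icert]
        refine ⟨l ++ [cd u (b :: c)], by simp [hlk], ?_, ?_⟩
        · rw [List.foldl_append, List.foldl_cons, List.foldl_nil]
          show ((l.foldl chStep (([] : List Bool), true)).2 && weq (cf (cd u (b :: c)))
            (l.foldl chStep (([] : List Bool), true)).1) = true
          rw [hl2, cf_cd, ← hu, Bool.true_and, weq_iff]
        · intro it hit
          rw [List.mem_append, List.mem_singleton] at hit
          rcases hit with hit | rfl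
          · exact hl3 it hit
          · refine ⟨?_, ?_⟩
            · rw [hNrun, hib, hic, cf_cd]
              refine ⟨hc1, hRx u ?_⟩
              have : m x.length = p.eval x.length := rfl
              omega
            · rw [cd_length, List.length_cons]
              omega
    obtain ⟨l, hlk, hl2, hl3⟩ := hl _ le_rfl
    refine ⟨lc l, ?_, ?_⟩
    · refine (lc_length_le l _ fun it hit => (hl3 it hit).2).trans ?_
      rw [hlk]
      exact hP x.length
    · rw [hVrun, ld_lc]
      have h1 : (l.foldl chStep (([] : List Bool), true)).1.length = m x.length := by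
        rw [chStep_length, hlk]; simp
      exact ⟨fun it hit => (hl3 it hit).1, hRx _ h1.le, hl2, h1.ge⟩
  · rintro ⟨w, -, hw⟩ hx
    rw [hVrun] at hw
    obtain ⟨h1, h2, h3, h4⟩ := hw
    rw [hL] at hx
    obtain ⟨v, hv, hv'⟩ := hx
    obtain ⟨e, he, he'⟩ := hchain (ld w) x [] h1 ⟨v, by simpa using hv, by simpa using hv'⟩ h3
    rw [List.length_append] at he
    have h5 : e = [] := List.length_eq_zero_iff.1 (by omega)
    rw [h5, List.append_nil, h2] at he'
    exact Bool.false_ne_true he'

/-- If NP ≠ coNP relative to `A`, then there are two languages `Y`, `Z` of NP relative to `A` such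
that every language of NP ∩ coNP relative to `A` differs from `Y` at some long word which is in
exactly one of `Y` and `Z`. -/
theorem esy (A : Oracle) (h : NPo A ≠ coNPo A) : ∃ Y Z : DecisionProblem, Y ∈ NPo A ∧ Z ∈ NPo A ∧
    ∀ S ∈ NPo A ∩ coNPo A, ∀ n₀ : ℕ, ∃ z : List Bool, n₀ ≤ z.length ∧
      (Y z = true ↔ ¬ Z z = true) ∧ ¬ (S z = true ↔ Y z = true) := by
  have h1 : ∃ L, L ∈ NPo A ∧ L ∉ coNPo A := by
    by_contra hc
    push Not at hc
    refine h (Set.Subset.antisymm hc fun L hL => ?_)
    have h2 : Lᶜ ∈ coNPo A := hc _ hL
    have h3 : Lᶜᶜ ∈ NPo A := h2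
    rwa [compl_compl] at h3
  obtain ⟨L, ⟨p, R, hR⟩, hL⟩ := h1
  refine ⟨Br A p R true, Br A p R false, Br_mem A p R true, Br_mem A p R false, ?_⟩
  rintro S ⟨hS1, hS0⟩ n₀
  by_contra hc
  push Not at hc
  refine hL (esy_core A L p R hR S hS1 hS0 n₀ fun z hz hpr => ?_)
  by_contra hd
  exact hd (hc z hz hpr)

end Pool.Agent.Helper21.Off
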