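import Mathlib
import Pool.Agent.Helper8.Sip.Main
import Pool.Agent.Helper21.Off.Esy
import Pool.Agent.Helper49.Cons.Trans
import Pool.Agent.Helper49.Cons.Alt

set_option autoImplicit false

/-!
# Generic tally oracles
-/

namespace Pool.Agent.Helper21.Off

open Turing Function N487b59b3 N68a2faeb N793a5b8e Pool.Agent.Helper22 Pool.Agent.Helper20.Cons
  Pool.Agent.Helper49.Cons Pool.Agent.Helper8.Sip Filter Topology

/-- the tally oracle of a sequence of bits -/
def tl (s : ℕ → Bool) : Oracle := fun q => allTrue q && s q.length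

theorem tally_tl (s : ℕ → Bool) : Tally (tl s) := by
  intro u hu
  rw [tl, Bool.and_eq_true] at hu
  exact (allTrue_iff u).1 hu.1

/-- the sequence of bits of a list, continued by `false` -/
def sq (τ : List Bool) : ℕ → Bool := fun k => (τ.drop k).headD false

theorem tab_eq (τ : List Bool) : tab τ = tl (sq τ) := rfl

theorem sq_append (τ ρ : List Bool) (k : ℕ) :
    sq (τ ++ ρ.drop τ.length) k = if k < τ.length then sq τ k else sq ρ k := by
  by_cases h : k < τ.length
  · rw [if_pos h, sq, sq, List.drop_append_of_le_length h.le]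
    have h1 : τ.drop k ≠ [] := by
      rw [Ne, List.drop_eq_nil_iff]; omega
    obtain ⟨a, l, hl⟩ := List.exists_cons_of_ne_nil h1
    rw [hl]
    rfl
  · rw [if_neg h, sq, sq, List.drop_append, List.drop_of_length_le (by omega), List.nil_append,
      List.drop_drop]
    congr 2
    omega

theorem sq_lt (τ : List Bool) (k : ℕ) (h : k < τ.length) : sq τ k = τ[k] := by
  rw [sq, List.headD_eq_head?_getD, List.head?_drop, List.getElem?_eq_getElem h]
  rfl

theorem sq_map (s : ℕ → Bool) (n k : ℕ) (h : k < n) : sq ((List.range n).map s) k = s k := by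
  rw [sq_lt _ _ (by simpa using h)]
  simp

/-- `s` continues the list `τ` -/
def Ext (τ : List Bool) (s : ℕ → Bool) : Prop := ∀ k < τ.length, s k = sq τ k

theorem ext_append (τ ρ : List Bool) : Ext τ (sq (τ ++ ρ.drop τ.length)) := by
  intro k hk
  rw [sq_append, if_pos hk]

theorem sq_eq_of_ext {τ ρ : List Bool} (h : Ext τ (sq ρ)) : sq (τ ++ ρ.drop τ.length) = sq ρ := by
  funext k
  rw [sq_append]
  split_ifs with h1
  · exact (h k h1).symm
  · rfl

theorem exists_ext {U : Set (ℕ → Bool)} (hU : IsOpen U) {s : ℕ → Bool} (hs : s ∈ U) (m : ℕ) :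
    ∃ n, m ≤ n ∧ ∀ s', Ext ((List.range n).map s) s' → s' ∈ U := by
  obtain ⟨c, ⟨x, n, rfl⟩, hc1, hc2⟩ :=
    (PiNat.isTopologicalBasis_cylinders (E := fun _ : ℕ => Bool)).exists_subset_of_mem_open hs hU
  refine ⟨max m n, le_max_left _ _, fun s' hs' => hc2 ?_⟩
  rw [PiNat.mem_cylinder_iff] at hc1 ⊢
  intro i hi
  have h1 : i < max m n := lt_of_lt_of_le hi (le_max_right _ _)
  rw [hs' i (by simpa using h1), sq_map _ _ _ h1, hc1 i hi]

theorem isClosed_ext (τ : List Bool) : IsClosed {s : ℕ → Bool | Ext τ s} := by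
  have h : {s : ℕ → Bool | Ext τ s} = ⋂ k, {s : ℕ → Bool | k < τ.length → s k = sq τ k} := by
    ext s
    simp [Ext]
  rw [h]
  refine isClosed_iInter fun k => ?_
  by_cases hk : k < τ.length
  · have h1 : {s : ℕ → Bool | k < τ.length → s k = sq τ k} =
        (fun s : ℕ → Bool => s k) ⁻¹' {sq τ k} := by
      ext s
      simp [hk]
    rw [h1]
    exact (isClosed_discrete _).preimage (continuous_apply k)
  · have h1 : {s : ℕ → Bool | k < τ.length → s k = sq τ k} = Set.univ := by
      ext s
      simp [hk]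
    rw [h1]
    exact isClosed_univ

/-- the join of `A` with the tally oracle of `s` -/
def jt (A : Oracle) (s : ℕ → Bool) : Oracle := join A (tl s)

theorem continuous_jt (A : Oracle) : Continuous (jt A) := by
  refine continuous_pi fun w => ?_
  match w with
  | [] => exact continuous_const
  | false :: u => exact continuous_const
  | true :: u =>
    show Continuous fun s : ℕ → Bool => allTrue u && s u.length
    have h : Continuous fun b : Bool => allTrue u && b := continuous_of_discreteTopology
    exact h.comp (continuous_apply _)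

theorem isClosed_valid (P : Pr) : IsClosed {X : Oracle | Valid P X} := by
  rw [← isOpen_compl_iff, isOpen_iff_mem_nhds]
  intro X hX
  exact eventually_invalid hX

theorem isClosed_red (B : DecisionProblem) (P : Pr) (f : OracleProc (List Bool) (List Bool)) :
    IsClosed {X : Oracle | ∀ x, B x = true ↔ Accepts P.1.1 P.1.2 X (f.run X x)} := by
  rw [← isOpen_compl_iff, isOpen_iff_mem_nhds]
  intro X hX
  rw [Set.mem_compl_iff, Set.mem_ofPred_eq, not_forall] at hX
  obtain ⟨x, hx⟩ := hX
  filter_upwards [eventually_run f X x, eventually_accepts P.1.1 P.1.2 X (f.run X x)]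
    with Y h1 h2 h3
  have h4 := h3 x
  rw [h1, h2] at h4
  exact hx h4

theorem NPo_embed (A T : Oracle) : NPo A ⊆ NPo (join A T) := by
  have h := cls_embed (accAlt 1 true) A T
  rwa [cls_accAlt, cls_accAlt, AltP_one, AltP_one] at h

theorem inter_embed (A T : Oracle) : NPo A ∩ coNPo A ⊆ NPo (join A T) ∩ coNPo (join A T) :=
  fun _ h => ⟨NPo_embed A T h.1, NPo_embed A T h.2⟩

/-- the language of the verifier `M` with the oracle that is the join of `A` and the oracle coded
in the first part of the input -/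
noncomputable def accL (A : Oracle) (M : OracleProc (List Bool × List Bool) Bool)
    (p : Polynomial ℕ) (orc : List Bool × List Bool → Bool) : DecisionProblem := fun z =>
  @decide (Accepts M p (join A (fun q => orc (cf z, q))) (cs z)) (Classical.propDecidable _)

theorem accL_iff (A : Oracle) (M : OracleProc (List Bool × List Bool) Bool)
    (p : Polynomial ℕ) (orc : List Bool × List Bool → Bool) (z : List Bool) :
    accL A M p orc z = true ↔ Accepts M p (join A (fun q => orc (cf z, q))) (cs z) :=
  @decide_eq_true_iff _ (Classical.propDecidable _)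

theorem accL_mem (A : Oracle) (M : OracleProc (List Bool × List Bool) Bool)
    (p : Polynomial ℕ) {orc : List Bool × List Bool → Bool} (ho : FP orc) :
    accL A M p orc ∈ NPo A := by
  obtain ⟨M', hM'⟩ := exists_bounded M p
  have hf : FP fun a : List Bool × List Bool => (cf a.1, (cs a.1, a.2)) := by fun_prop
  refine ⟨p, pre (simJoin M' orc ho) _ hf, fun z => ?_⟩
  have hrun : ∀ w, (pre (simJoin M' orc ho) _ hf).run A (z, w) = true ↔
      w.length ≤ p.eval (cs z).length ∧
        M.run (join A (fun q => orc (cf z, q))) (cs z, w) = true := by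
    intro w
    rw [pre_run, simJoin_run M' ho (J := join A (fun q => orc (cf z, q))) (cf z, (cs z, w))
      (isJoin_join A _), hM']
  rw [accL_iff]
  constructor
  · rintro ⟨w, h1, h2⟩
    exact ⟨w, h1.trans (poly_mono p (cs_length z)), (hrun w).2 ⟨h1, h2⟩⟩
  · rintro ⟨w, -, h⟩
    have h1 := (hrun w).1 h
    exact ⟨w, h1.1, h1.2⟩

theorem accL_inter (A : Oracle) (P : Pr) {orc : List Bool × List Bool → Bool} (ho : FP orc)
    (hv : ∀ z, Valid P (join A (fun q => orc (cf z, q)))) :
    accL A P.1.1 P.1.2 orc ∈ NPo A ∩ coNPo A := by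
  refine ⟨accL_mem A _ _ ho, ?_⟩
  have h : (accL A P.1.1 P.1.2 orc)ᶜ = accL A P.2.1 P.2.2 orc := by
    funext z
    rw [Bool.eq_iff_iff, compl_true, accL_iff, accL_iff, hv z (cs z), not_not]
  show (accL A P.1.1 P.1.2 orc)ᶜ ∈ NPo A
  rw [h]
  exact accL_mem A _ _ ho

/-- the tally oracle coded by a word, forced to continue `τ` -/
def orcT (τ : List Bool) (p : List Bool × List Bool) : Bool := tab (τ ++ p.1.drop τ.length) p.2

theorem orcT_FP (τ : List Bool) : FP (orcT τ) := by
  have h : FP fun p : List Bool × List Bool => (τ ++ p.1.drop τ.length, p.2) :=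
    FP.pair (FP.append (FP.const τ) (FP.drop (g := fun _ : List Bool × List Bool => τ)
      FP.fst (FP.const τ))) FP.snd
  exact tab_FP.comp h

theorem join_orcT (A : Oracle) (τ ρ : List Bool) :
    join A (fun q => orcT τ (ρ, q)) = jt A (sq (τ ++ ρ.drop τ.length)) := rfl

/-- the class of NP ∩ coNP is coded by pairs of verifiers -/
theorem exists_pair {X : Oracle} {L : DecisionProblem} (h : L ∈ NPo X ∩ coNPo X) :
    ∃ P : Pr, Valid P X ∧ ∀ x, L x = true ↔ Accepts P.1.1 P.1.2 X x := by
  obtain ⟨⟨p1, M1, h1⟩, ⟨p0, M0, h0⟩⟩ := h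
  refine ⟨((M1, p1), (M0, p0)), fun z => ?_, h1⟩
  show Accepts M1 p1 X z ↔ ¬ Accepts M0 p0 X z
  rw [← h1, ← h0, compl_true, not_not]

open scoped Classical in
theorem pair_mem {X : Oracle} {P : Pr} (h : Valid P X) :
    (fun x => decide (Accepts P.1.1 P.1.2 X x) : DecisionProblem) ∈ NPo X ∩ coNPo X := by
  refine ⟨⟨P.1.2, P.1.1, fun x => decide_eq_true_iff⟩, ⟨P.2.2, P.2.1, fun x => ?_⟩⟩
  rw [compl_true, decide_eq_true_iff, h x, not_not]

/-- **Upwards.** -/
theorem generic_up {A : Oracle} (hA : A ∈ HasCompleteRel) :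
    ∀ᶠ s in residual (ℕ → Bool), jt A s ∈ HasCompleteRel := by
  classical
  obtain ⟨K, hK, hKc⟩ := hA
  have hres : ∀ P : Pr, ∀ᶠ s in residual (ℕ → Bool),
      s ∈ (frontier ((jt A) ⁻¹' {X : Oracle | Valid P X}))ᶜ := by
    intro P
    have hc : IsClosed ((jt A) ⁻¹' {X : Oracle | Valid P X}) :=
      (isClosed_valid P).preimage (continuous_jt A)
    exact residual_of_dense_open isClosed_frontier.isOpen_compl
      (interior_eq_empty_iff_dense_compl.1 (interior_frontier hc))
  have hall := eventually_countable_forall.2 hres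
  filter_upwards [hall] with s hs
  refine ⟨K, inter_embed A _ hK, fun L hL => ?_⟩
  obtain ⟨P, hP, hLP⟩ := exists_pair hL
  have hmem : s ∈ interior ((jt A) ⁻¹' {X : Oracle | Valid P X}) := by
    by_contra hc
    exact hs P ⟨subset_closure hP, hc⟩
  obtain ⟨n, -, hn⟩ := exists_ext isOpen_interior hmem 0
  set τ := (List.range n).map s with hτ
  have hv : ∀ s', Ext τ s' → Valid P (jt A s') := fun s' hs' => interior_subset (hn s' hs')
  set B := accL A P.1.1 P.1.2 (orcT τ) with hB
  have hBmem : B ∈ NPo A ∩ coNPo A := accL_inter A P (orcT_FP τ) fun z => by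
    rw [join_orcT]
    exact hv _ (ext_append _ _)
  obtain ⟨f, hf⟩ := hKc B hBmem
  -- the bound for the queries
  obtain ⟨BM, hBM, hBMm, hBMle⟩ := exists_use_bound P.1.1
  have hG : PB fun m => BM (2 * m + 1 + 3 * P.1.2.eval m) + 1 := by
    have h1 : PB fun m => P.1.2.eval m := PB.poly P.1.2
    fun_prop
  obtain ⟨c, hc, hcle⟩ := exists_unary_bound (α := List Bool) hG
  obtain ⟨Kt, hKt⟩ := exists_tabProc c hc
  have hsame : ∀ x : List Bool, ∀ q : List Bool, q.length < (c x).length →
      join A (fun q => orcT τ (table (tl s) (c x).length, q)) q = join A (tl s) q := by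
    intro x q hq
    rcases q with _ | ⟨b, q⟩
    · rfl
    · cases b
      · rfl
      · rw [List.length_cons] at hq
        show (allTrue q && sq (τ ++ (table (tl s) (c x).length).drop τ.length) q.length) =
          (allTrue q && s q.length)
        rw [sq_append]
        congr 1
        split_ifs with h1
        · rw [hτ, sq_map]
          rw [hτ] at h1
          simpa using h1
        · have h2 : table (tl s) (c x).length = (List.range (c x).length).map s := by
            rw [table]
            refine List.map_congr_left fun j _ => ?_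
            show (allTrue (un j) && s (un j).length) = s j
            rw [un_length, (allTrue_iff _).2 (fun b hb => by
              rw [un, List.mem_replicate] at hb; exact hb.2), Bool.true_and]
          rw [h2, sq_map]
          omega
  have hval : ∀ x, Accepts P.1.1 P.1.2
      (join A (fun q => orcT τ (table (tl s) (c x).length, q))) x ↔
      Accepts P.1.1 P.1.2 (join A (tl s)) x := by
    intro x
    have h1 : ∀ w : List Bool, w.length ≤ P.1.2.eval x.length → P.1.1.run
        (join A (fun q => orcT τ (table (tl s) (c x).length, q))) (x, w) =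
        P.1.1.run (join A (tl s)) (x, w) := by
      intro w hw
      refine hBMle _ _ _ fun q hq => hsame x q ?_
      have h2 := hcle x
      have h3 := poly_mono P.1.2 (length_le_sz x)
      simp only at h3
      have h4 : sz (x, w) ≤ 2 * sz x + 1 + 3 * P.1.2.eval (sz x) := by
        rw [sz_pair, sz_bits w]
        omega
      have h5 := hBMm h4
      omega
    constructor
    · rintro ⟨w, hw, h2⟩
      exact ⟨w, hw, by rw [← h1 w hw]; exact h2⟩
    · rintro ⟨w, hw, h2⟩
      exact ⟨w, hw, by rw [h1 w hw]; exact h2⟩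
  obtain ⟨g, hg⟩ := exists_comp Kt (emb f)
  refine ⟨g, fun x => ?_⟩
  have h1 : g.run (jt A s) x = f.run A (cd (table (tl s) (c x).length) x) := by
    rw [hg]
    show (emb f).run (join A (tl s)) (Kt.run (join A (tl s)) x) = _
    rw [hKt, emb_run]
  rw [h1, ← hf, Bool.eq_iff_iff, hLP]
  show Accepts P.1.1 P.1.2 (join A (tl s)) x ↔ _
  rw [hB, accL_iff, cf_cd, cs_cd, hval]

theorem isMeagre_of_isClosed {S : Set (ℕ → Bool)} (hS : IsClosed S) (h : interior S = ∅) :
    IsMeagre S :=
  residual_of_dense_open hS.isOpen_compl (interior_eq_empty_iff_dense_compl.1 h)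

/-- **Downwards.** -/
theorem generic_down {A : Oracle} (h : ¬ IsMeagre {s : ℕ → Bool | jt A s ∈ HasCompleteRel}) :
    A ∈ HasCompleteRel := by
  classical
  -- the sets for the pairs
  let E : Pr → Set (ℕ → Bool) := fun P => {s | Valid P (jt A s) ∧ ∀ B ∈ NPo A ∩ coNPo A,
    ∃ f : OracleProc (List Bool) (List Bool), ∀ x, B x = true ↔
      Accepts P.1.1 P.1.2 (jt A s) (f.run (jt A s) x)}
  have h1 : {s : ℕ → Bool | jt A s ∈ HasCompleteRel} ⊆ ⋃ P, E P := by
    rintro s ⟨K, hK, hKc⟩
    obtain ⟨P, hP, hKP⟩ := exists_pair hK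
    refine Set.mem_iUnion.2 ⟨P, hP, fun B hB => ?_⟩
    obtain ⟨f, hf⟩ := hKc B (inter_embed A _ hB)
    exact ⟨f, fun x => by rw [hf, hKP]⟩
  have h2 : ∃ P, ¬ IsMeagre (E P) := by
    by_contra hc
    push Not at hc
    exact h ((isMeagre_iUnion hc).mono h1)
  obtain ⟨P, hP⟩ := h2
  set V := (jt A) ⁻¹' {X : Oracle | Valid P X} with hV
  have hVc : IsClosed V := (isClosed_valid P).preimage (continuous_jt A)
  -- a cylinder
  have h3 : ∃ τ : List Bool, (∀ s, Ext τ s → s ∈ V) ∧ ¬ IsMeagre (E P ∩ {s | Ext τ s}) := by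
    by_contra hc
    push Not at hc
    apply hP
    let G : List Bool → Set (ℕ → Bool) := fun τ =>
      if ∀ s, Ext τ s → s ∈ V then E P ∩ {s | Ext τ s} else ∅
    have h4 : ∀ τ, IsMeagre (G τ) := by
      intro τ
      by_cases h5 : ∀ s, Ext τ s → s ∈ V
      · simp only [G, if_pos h5]
        exact hc τ h5
      · simp only [G, if_neg h5]
        exact IsMeagre.empty
    have h5 : IsMeagre (frontier V) :=
      isMeagre_of_isClosed isClosed_frontier (interior_frontier hVc)
    refine (h5.union (isMeagre_iUnion h4)).mono ?_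
    intro s hs
    by_cases h6 : s ∈ interior V
    · right
      obtain ⟨n, -, hn⟩ := exists_ext isOpen_interior h6 0
      refine Set.mem_iUnion.2 ⟨(List.range n).map s, ?_⟩
      have h7 : ∀ s', Ext ((List.range n).map s) s' → s' ∈ V := fun s' hs' =>
        interior_subset (hn s' hs')
      simp only [G, if_pos h7]
      exact ⟨hs, fun k hk => (sq_map s n k (by simpa using hk)).symm⟩
    · left
      exact ⟨subset_closure hs.1, h6⟩
  obtain ⟨τ, hτ, hE⟩ := h3
  have hv : ∀ ρ : List Bool, Valid P (jt A (sq (τ ++ ρ.drop τ.length))) := fun ρ =>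
    hτ _ (ext_append _ _)
  refine ⟨accL A P.1.1 P.1.2 (orcT τ), accL_inter A P (orcT_FP τ) fun z => by
    rw [join_orcT]; exact hv _, fun B hB => ?_⟩
  -- a reduction that works on a cylinder
  have h4 : ∃ f : OracleProc (List Bool) (List Bool), ¬ IsMeagre ({s | Ext τ s} ∩ (jt A) ⁻¹'
      {X : Oracle | ∀ x, B x = true ↔ Accepts P.1.1 P.1.2 X (f.run X x)}) := by
    by_contra hc
    push Not at hc
    apply hE
    refine (isMeagre_iUnion hc).mono ?_
    rintro s ⟨hs1, hs2⟩
    obtain ⟨f, hf⟩ := hs1.2 B hB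
    exact Set.mem_iUnion.2 ⟨f, hs2, hf⟩
  obtain ⟨f, hf⟩ := h4
  have h5 : (interior ({s | Ext τ s} ∩ (jt A) ⁻¹'
      {X : Oracle | ∀ x, B x = true ↔ Accepts P.1.1 P.1.2 X (f.run X x)})).Nonempty := by
    rw [Set.nonempty_iff_ne_empty]
    intro h6
    exact hf (isMeagre_of_isClosed ((isClosed_ext τ).inter
      ((isClosed_red B P f).preimage (continuous_jt A))) h6)
  obtain ⟨s₀, hs₀⟩ := h5
  obtain ⟨n, -, hn⟩ := exists_ext isOpen_interior hs₀ 0
  set ρ := (List.range n).map s₀ with hρ
  have h6 : sq ρ ∈ {s | Ext τ s} ∩ (jt A) ⁻¹'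
      {X : Oracle | ∀ x, B x = true ↔ Accepts P.1.1 P.1.2 X (f.run X x)} :=
    interior_subset (hn (sq ρ) fun k _ => rfl)
  obtain ⟨h7, h8⟩ := h6
  have ho : FP fun a : Bool × List Bool => tab ρ a.2 :=
    tab_FP.comp ((FP.const ρ).pair FP.snd)
  have hg : FP fun x : List Bool => (true, x) := (FP.const true).pair FP.id
  obtain ⟨g, hg'⟩ := exists_post (pre (simJoin f _ ho) _ hg)
    (fun a : List Bool × List Bool => cd ρ a.2) (FP.cd (FP.const ρ) FP.snd)
  refine ⟨g, fun x => ?_⟩
  have h9 : g.run A x = cd ρ (f.run (jt A (sq ρ)) x) := by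
    rw [hg', pre_run]
    show cd ρ ((simJoin f _ ho).run A (true, x)) = _
    rw [simJoin_run f ho (J := jt A (sq ρ)) (true, x) (isJoin_join A _)]
  rw [h9, Bool.eq_iff_iff, accL_iff, cf_cd, cs_cd, join_orcT, sq_eq_of_ext h7]
  exact h8 x

end Pool.Agent.Helper21.Off
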